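import Pool.Agent.W973.IP.FDefs

/-! Disjunction of formulas, the unused variables being zero. -/

set_option autoImplicit false

namespace Pool.Agent.W585.IP

open Pool.Agent.W973.IP Pool.Agent.NPC Pool.Agent.NPC.ER Pool.Agent.NPC.H612

theorem tvars_var (i : ℕ) : tvars (Tm.var i) = [i] := by simp [tvars, Tm.toks, tokv, Tok.code]

theorem tvars_zero : tvars Tm.zero = [] := by simp [tvars, Tm.toks, tokv, Tok.code]

theorem tvars_one : tvars Tm.one = [] := by simp [tvars, Tm.toks, tokv, Tok.code]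

theorem tvars_add (s t : Tm) : tvars (Tm.add s t) = tvars s ++ tvars t := by
  simp [tvars, Tm.toks, tokv, Tok.code]

theorem tvars_neg (s : Tm) : tvars (Tm.neg s) = tvars s := by
  simp [tvars, Tm.toks, tokv, Tok.code]

theorem tvars_mul (s t : Tm) : tvars (Tm.mul s t) = tvars s ++ tvars t := by
  simp [tvars, Tm.toks, tokv, Tok.code]

theorem fvars_eq (s t : Tm) : fvars (Fm.eq s t) = tvars s ++ tvars t := by
  simp [tvars, fvars, Fm.toks, tokv, Tok.code]

theorem fvars_lt (s t : Tm) : fvars (Fm.lt s t) = tvars s ++ tvars t := by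
  simp [tvars, fvars, Fm.toks, tokv, Tok.code]

theorem fvars_le (s t : Tm) : fvars (Fm.le s t) = tvars s ++ tvars t := by
  simp [tvars, fvars, Fm.toks, tokv, Tok.code]

theorem fvars_not (φ : Fm) : fvars (Fm.not φ) = fvars φ := by
  simp [fvars, Fm.toks, tokv, Tok.code]

theorem fvars_and (φ ψ : Fm) : fvars (Fm.and φ ψ) = fvars φ ++ fvars ψ := by
  simp [fvars, Fm.toks, tokv, Tok.code]

theorem fvars_or (φ ψ : Fm) : fvars (Fm.or φ ψ) = fvars φ ++ fvars ψ := by
  simp [fvars, Fm.toks, tokv, Tok.code]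

theorem fvars_tt : fvars tt = [] := by
  rw [tt, fvars_eq, tvars_zero, List.append_nil]

theorem eval_congr {x y : ℕ → ℝ} (t : Tm) (h : ∀ i ∈ tvars t, x i = y i) :
    t.eval x = t.eval y := by
  induction t with
  | var i => exact h i (by rw [tvars_var]; simp)
  | zero => rfl
  | one => rfl
  | add s t hs ht =>
    rw [tvars_add] at h
    simp only [Tm.eval]
    rw [hs fun i hi => h i (List.mem_append_left _ hi),
      ht fun i hi => h i (List.mem_append_right _ hi)]
  | neg t ht =>
    rw [tvars_neg] at h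
    simp only [Tm.eval]
    rw [ht h]
  | mul s t hs ht =>
    rw [tvars_mul] at h
    simp only [Tm.eval]
    rw [hs fun i hi => h i (List.mem_append_left _ hi),
      ht fun i hi => h i (List.mem_append_right _ hi)]

theorem holds_congr {x y : ℕ → ℝ} (φ : Fm) (h : ∀ i ∈ fvars φ, x i = y i) :
    φ.Holds x ↔ φ.Holds y := by
  induction φ with
  | eq s t =>
    rw [fvars_eq] at h
    simp only [Fm.Holds]
    rw [eval_congr s fun i hi => h i (List.mem_append_left _ hi),
      eval_congr t fun i hi => h i (List.mem_append_right _ hi)]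
  | lt s t =>
    rw [fvars_lt] at h
    simp only [Fm.Holds]
    rw [eval_congr s fun i hi => h i (List.mem_append_left _ hi),
      eval_congr t fun i hi => h i (List.mem_append_right _ hi)]
  | le s t =>
    rw [fvars_le] at h
    simp only [Fm.Holds]
    rw [eval_congr s fun i hi => h i (List.mem_append_left _ hi),
      eval_congr t fun i hi => h i (List.mem_append_right _ hi)]
  | not φ ih =>
    rw [fvars_not] at h
    simp only [Fm.Holds]
    rw [ih h]
  | and φ ψ h1 h2 =>
    rw [fvars_and] at h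
    simp only [Fm.Holds]
    rw [h1 fun i hi => h i (List.mem_append_left _ hi),
      h2 fun i hi => h i (List.mem_append_right _ hi)]
  | or φ ψ h1 h2 =>
    rw [fvars_or] at h
    simp only [Fm.Holds]
    rw [h1 fun i hi => h i (List.mem_append_left _ hi),
      h2 fun i hi => h i (List.mem_append_right _ hi)]

theorem mem_fvars_conj (i : ℕ) (l : List Fm) : i ∈ fvars (conj l) ↔ ∃ φ ∈ l, i ∈ fvars φ := by
  induction l with
  | nil =>
    change i ∈ fvars tt ↔ _
    rw [fvars_tt]; simp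
  | cons a l ih =>
    change i ∈ fvars (Fm.and a (conj l)) ↔ _
    rw [fvars_and, List.mem_append, ih]
    simp

theorem mem_fvars_disj (i : ℕ) (l : List Fm) : i ∈ fvars (disj l) ↔ ∃ φ ∈ l, i ∈ fvars φ := by
  rw [disj, fvars_not, mem_fvars_conj]
  simp only [List.mem_map, exists_exists_and_eq_and, fvars_not]

theorem mem_fvars_djp (i : ℕ) (l : List Fm) : i ∈ fvars (djp l) ↔ ∃ φ ∈ l, i ∈ fvars φ := by
  rw [djp, mem_fvars_disj]
  simp only [List.mem_map, exists_exists_and_eq_and, fvars_and, List.mem_append, mem_fvars_conj]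
  constructor
  · rintro ⟨φ, hφ, h | ⟨j, hj, h⟩⟩
    · exact ⟨φ, hφ, h⟩
    · split_ifs at h with h1
      · rw [fvars_tt] at h; simp at h
      · rw [fvars_eq, tvars_var, tvars_zero] at h
        simp only [List.append_nil, List.mem_singleton] at h
        rw [h]
        simpa [List.mem_flatMap] using hj
  · rintro ⟨φ, hφ, h⟩
    exact ⟨φ, hφ, Or.inl h⟩

theorem holds_djp (x : ℕ → ℝ) (l : List Fm) : (djp l).Holds x ↔
    ∃ φ ∈ l, φ.Holds x ∧ ∀ i, (∃ ψ ∈ l, i ∈ fvars ψ) → i ∉ fvars φ → x i = 0 := by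
  rw [djp, holds_disj]
  simp only [List.mem_map, exists_exists_and_eq_and]
  constructor
  · rintro ⟨φ, hφ, h⟩
    have h' : φ.Holds x ∧ (conj ((l.flatMap fvars).map fun i =>
      if i ∈ fvars φ then tt else Fm.eq (Tm.var i) Tm.zero)).Holds x := h
    refine ⟨φ, hφ, h'.1, fun i hi hi' => ?_⟩
    have h2 := (holds_conj x _).1 h'.2 (Fm.eq (Tm.var i) Tm.zero) (by
      rw [List.mem_map]
      exact ⟨i, List.mem_flatMap.2 hi, if_neg hi'⟩)
    exact h2
  · rintro ⟨φ, hφ, h1, h2⟩
    refine ⟨φ, hφ, h1, (holds_conj x _).2 ?_⟩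
    intro ψ hψ
    rw [List.mem_map] at hψ
    obtain ⟨i, hi, rfl⟩ := hψ
    by_cases h3 : i ∈ fvars φ
    · rw [if_pos h3]; exact holds_tt x
    · rw [if_neg h3]
      exact h2 i (List.mem_flatMap.1 hi) h3

theorem djpT : S_DJP := by
  intro l
  refine ⟨fun hf => ?_, fun x hx => ?_, fun φ hφ x hx => ?_, fun i => mem_fvars_djp i l⟩
  · apply Set.Finite.subset (s := ⋃ φ ∈ {φ : Fm | φ ∈ l}, sols φ)
    · exact Set.Finite.biUnion (List.finite_toSet l) fun φ hφ => hf φ hφ
    · intro x hx
      obtain ⟨φ, hφ, h1, h2⟩ := (holds_djp x l).1 hx.2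
      refine Set.mem_biUnion (show φ ∈ {φ : Fm | φ ∈ l} from hφ) ⟨fun i hi => ?_, h1⟩
      by_cases h3 : ∃ ψ ∈ l, i ∈ fvars ψ
      · exact h2 i h3 hi
      · exact hx.1 i (by rw [mem_fvars_djp]; exact h3)
  · obtain ⟨φ, hφ, h1, _⟩ := (holds_djp x l).1 hx
    exact ⟨φ, hφ, h1⟩
  · refine ⟨fun i => if i ∈ fvars φ then x i else 0, fun i hi => if_pos hi, ?_⟩
    rw [holds_djp]
    refine ⟨φ, hφ, ?_, fun i _ hi => if_neg hi⟩
    rw [holds_congr φ (y := x) fun i hi => if_pos hi]
    exact hx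

end Pool.Agent.W585.IP
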